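import Pool.Agent.Helper87.HQ.St

set_option autoImplicit false

namespace Pool.Agent.Helper9.HQ

open Set Pool.Agent.Helper87.HQ

private lemma const_of_deriv {P : ℝ → ℝ} {l : ℝ}
    (h : ∀ x ∈ Icc (0 : ℝ) l, HasDerivWithinAt P 0 (Icc (0 : ℝ) l) x)
    {x y : ℝ} (hx : x ∈ Icc (0 : ℝ) l) (hy : y ∈ Icc (0 : ℝ) l) : P x = P y := by
  have hc := (convex_Icc (0 : ℝ) l).norm_image_sub_le_of_norm_hasDerivWithin_le
    (f := P) (f' := fun _ => 0) (C := 0) h (fun _ _ => by simp) hy hx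
  rw [zero_mul] at hc
  have := norm_le_zero_iff.1 hc
  linarith

private lemma exp_deriv (c x : ℝ) :
    HasDerivAt (fun x : ℝ => Real.exp (c * x)) (c * Real.exp (c * x)) x := by
  have h1 : HasDerivAt (fun x : ℝ => c * x) c x := by
    simpa using (hasDerivAt_id x).const_mul c
  have h2 := h1.exp
  rwa [mul_comm] at h2

private lemma ode_zero_of {f g : ℝ → ℝ} {κ l : ℝ} (hκ : 0 < κ)
    (hf : ∀ x ∈ Icc (0 : ℝ) l, HasDerivWithinAt f (g x) (Icc (0 : ℝ) l) x)
    (hg : ∀ x ∈ Icc (0 : ℝ) l, HasDerivWithinAt g (κ ^ 2 * f x) (Icc (0 : ℝ) l) x)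
    {x0 : ℝ} (hx0 : x0 ∈ Icc (0 : ℝ) l) (h1 : f x0 = 0) (h2 : g x0 = 0) :
    ∀ x ∈ Icc (0 : ℝ) l, f x = 0 := by
  intro x hx
  have hP : (g x - κ * f x) * Real.exp (κ * x) = (g x0 - κ * f x0) * Real.exp (κ * x0) := by
    refine const_of_deriv (P := fun x => (g x - κ * f x) * Real.exp (κ * x)) ?_ hx hx0
    intro y hy
    have h3 := ((hg y hy).sub ((hf y hy).const_mul κ)).mul (exp_deriv κ y).hasDerivWithinAt
    refine h3.congr_deriv ?_
    simp only [Pi.sub_apply]
    ring
  have hQ : (g x + κ * f x) * Real.exp (-κ * x) = (g x0 + κ * f x0) * Real.exp (-κ * x0) := by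
    refine const_of_deriv (P := fun x => (g x + κ * f x) * Real.exp (-κ * x)) ?_ hx hx0
    intro y hy
    have h3 := ((hg y hy).add ((hf y hy).const_mul κ)).mul (exp_deriv (-κ) y).hasDerivWithinAt
    refine h3.congr_deriv ?_
    simp only [Pi.add_apply]
    ring
  rw [h1, h2] at hP hQ
  simp only [mul_zero, sub_zero, add_zero, zero_mul] at hP hQ
  have e1 := (mul_eq_zero.1 hP).resolve_right (Real.exp_pos _).ne'
  have e2 := (mul_eq_zero.1 hQ).resolve_right (Real.exp_pos _).ne'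
  have e3 : κ * f x = 0 := by linarith
  exact (mul_eq_zero.1 e3).resolve_left hκ.ne'

private lemma deriv_left {f : ℝ → ℝ} {d l : ℝ} (hl : 0 < l)
    (h : HasDerivWithinAt f d (Icc (0 : ℝ) l) 0) (h0 : f 0 = 0) (hf : ∀ x, 0 ≤ f x) : 0 ≤ d := by
  have h1 : IsLocalMinOn f (Icc (0 : ℝ) l) 0 :=
    Filter.Eventually.of_forall (fun x => by simpa [h0] using hf x)
  have h2 := h1.hasFDerivWithinAt_nonneg h.hasFDerivWithinAt (y := l)
    (mem_posTangentConeAt_of_segment_subset (by
      rw [segment_eq_Icc (by linarith)]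
      simp))
  simp at h2
  nlinarith

private lemma deriv_right {f : ℝ → ℝ} {d l : ℝ} (hl : 0 < l)
    (h : HasDerivWithinAt f d (Icc (0 : ℝ) l) l) (h0 : f l = 0) (hf : ∀ x, 0 ≤ f x) : d ≤ 0 := by
  have h1 : IsLocalMinOn f (Icc (0 : ℝ) l) l :=
    Filter.Eventually.of_forall (fun x => by simpa [h0] using hf x)
  have h2 := h1.hasFDerivWithinAt_nonneg h.hasFDerivWithinAt (y := -l)
    (mem_posTangentConeAt_of_segment_subset (by
      rw [segment_symm, segment_eq_Icc (by linarith)]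
      simp))
  simp at h2
  nlinarith

private lemma onEdge_nonneg {G : MetricGraph} {H : G.Pt → ℝ} (h : ∀ y, 0 ≤ H y) (e : G.E) (x : ℝ) :
    0 ≤ G.onEdge H e x := by
  unfold MetricGraph.onEdge
  split_ifs <;> exact h _

private lemma onEdge_zero {G : MetricGraph} (H : G.Pt → ℝ) (e : G.E) :
    G.onEdge H e 0 = H (Sum.inl (G.src e)) := by
  unfold MetricGraph.onEdge
  simp

private lemma onEdge_len {G : MetricGraph} (H : G.Pt → ℝ) (e : G.E) :
    G.onEdge H e (G.len e) = H (Sum.inl (G.tgt e)) := by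
  unfold MetricGraph.onEdge
  have := G.len_pos e
  rw [dif_neg (by simp), if_neg (by linarith)]

private lemma onEdge_mem {G : MetricGraph} (H : G.Pt → ℝ) (e : G.E) (x : Ioo (0 : ℝ) (G.len e)) :
    G.onEdge H e x = H (Sum.inr ⟨e, x⟩) := by
  unfold MetricGraph.onEdge
  rw [dif_pos x.2]

theorem hC7 : StC7 := by
  intro G α κ hG hκ H hH hnn hz
  obtain ⟨D, hD1, hD2⟩ := hH
  -- the ODE in the form of the lemma
  have hf : ∀ e, ∀ x ∈ Icc (0 : ℝ) (G.len e),
      HasDerivWithinAt (G.onEdge H e) (D e x) (Icc (0 : ℝ) (G.len e)) x :=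
    fun e x hx => (hD1 e x hx).1
  have hg : ∀ e, ∀ x ∈ Icc (0 : ℝ) (G.len e),
      HasDerivWithinAt (D e) (κ ^ 2 * G.onEdge H e x) (Icc (0 : ℝ) (G.len e)) x := by
    intro e x hx
    have := (hD1 e x hx).2
    rwa [neg_neg] at this
  -- an interior zero
  have hint : ∀ (e : G.E) (x0 : ℝ), x0 ∈ Ioo (0 : ℝ) (G.len e) → G.onEdge H e x0 = 0 →
      ∀ x ∈ Icc (0 : ℝ) (G.len e), G.onEdge H e x = 0 := by
    intro e x0 hx0 h0
    have hx0' : x0 ∈ Icc (0 : ℝ) (G.len e) := Ioo_subset_Icc_self hx0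
    have hder : HasDerivAt (G.onEdge H e) (D e x0) x0 :=
      (hf e x0 hx0').hasDerivAt (Icc_mem_nhds hx0.1 hx0.2)
    have hmin : IsLocalMin (G.onEdge H e) x0 :=
      Filter.Eventually.of_forall (fun x => by
        rw [h0]
        exact onEdge_nonneg hnn e x)
    exact ode_zero_of hκ (hf e) (hg e) hx0' h0 (hmin.hasDerivAt_eq_zero hder)
  -- a vertex where `H` is zero
  have hvert : ∀ v : G.V, H (Sum.inl v) = 0 → ∀ e : G.E, (G.src e = v ∨ G.tgt e = v) →
      ∀ x ∈ Icc (0 : ℝ) (G.len e), G.onEdge H e x = 0 := by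
    intro v hv
    have hsum := hD2 v
    rw [hv, mul_zero] at hsum
    have ha : ∀ e : G.E, 0 ≤ (if G.src e = v then D e 0 else 0) := by
      intro e
      split_ifs with h
      · refine deriv_left (G.len_pos e) (hf e 0 ⟨le_rfl, (G.len_pos e).le⟩) ?_ (onEdge_nonneg hnn e)
        rw [onEdge_zero, h, hv]
      · exact le_rfl
    have hb : ∀ e : G.E, 0 ≤ (if G.tgt e = v then -D e (G.len e) else 0) := by
      intro e
      split_ifs with h
      · have := deriv_right (G.len_pos e) (hf e (G.len e) ⟨(G.len_pos e).le, le_rfl⟩)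
          (by rw [onEdge_len, h, hv]) (onEdge_nonneg hnn e)
        linarith
      · exact le_rfl
    have hab := (Finset.sum_eq_zero_iff_of_nonneg (fun e _ => add_nonneg (ha e) (hb e))).1 hsum
    intro e he
    have h1 := hab e (Finset.mem_univ _)
    have h2 := ha e
    have h3 := hb e
    rcases he with he | he
    · have h4 : (if G.src e = v then D e 0 else 0) = 0 := by linarith
      rw [if_pos he] at h4
      exact ode_zero_of hκ (hf e) (hg e) (x0 := 0) ⟨le_rfl, (G.len_pos e).le⟩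
        (by rw [onEdge_zero, he, hv]) h4
    · have h4 : (if G.tgt e = v then -D e (G.len e) else 0) = 0 := by linarith
      rw [if_pos he] at h4
      exact ode_zero_of hκ (hf e) (hg e) (x0 := G.len e) ⟨(G.len_pos e).le, le_rfl⟩
        (by rw [onEdge_len, he, hv]) (by linarith)
  -- the two ends of an edge
  have hends : ∀ v w : G.V, Relation.EqvGen (fun a b => ∃ e, G.src e = a ∧ G.tgt e = b) v w →
      (H (Sum.inl v) = 0 ↔ H (Sum.inl w) = 0) := by
    intro v w hvw
    induction hvw with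
    | rel a b h =>
      obtain ⟨e, h1, h2⟩ := h
      constructor
      · intro h3
        have := hvert a h3 e (Or.inl h1) (G.len e) ⟨(G.len_pos e).le, le_rfl⟩
        rwa [onEdge_len, h2] at this
      · intro h3
        have := hvert b h3 e (Or.inr h2) 0 ⟨le_rfl, (G.len_pos e).le⟩
        rwa [onEdge_zero, h1] at this
    | refl a => exact Iff.rfl
    | symm a b _ ih => exact ih.symm
    | trans a b c _ _ ih1 ih2 => exact ih1.trans ih2
  -- some vertex is a zero
  obtain ⟨v0, hv0⟩ : ∃ v : G.V, H (Sum.inl v) = 0 := by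
    obtain ⟨y, hy⟩ := hz
    rcases y with v | ⟨e, x⟩
    · exact ⟨v, hy⟩
    · refine ⟨G.src e, ?_⟩
      have := hint e x x.2 (by rw [onEdge_mem, hy]) 0 ⟨le_rfl, (G.len_pos e).le⟩
      rwa [onEdge_zero] at this
  have hall : ∀ v : G.V, H (Sum.inl v) = 0 := fun v => (hends v0 v (hG.2 v0 v)).1 hv0
  funext y
  rcases y with v | ⟨e, x⟩
  · exact hall v
  · have := hvert (G.src e) (hall _) e (Or.inl rfl) x (Ioo_subset_Icc_self x.2)
    rwa [onEdge_mem] at this

end Pool.Agent.Helper9.HQ
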